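import Pool.Agent.Helper70.GUM.St3

/-!
# Project GUM (MP_0bd1d1_al), module M2: the hyperbolic plane
-/

set_option autoImplicit false

namespace Pool.Agent.Helper1.GUT

open Module _root_.GUM Pool.Agent.Helper70.GUM Pool.Agent.Helper70.GUT
open UN (QE)
open OG (act Bd Stb steps Ch Wt act_one Wt_conj Wt_translate Wt_zero_on Bd_single Bd_union Bd_mono
  Bd_clifford supS)

universe u v w z y o

section geo

variable {k : Type u} {F : Type v} [Field k] [Field F] [Algebra k F] {X : Type y} [AddCommGroup X]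
  [Module F X] {σ : F ≃ₐ[k] F} {B : HForm σ X} {Y : Submodule F X} {p p' : X}

/-- the elements of trace zero as a subspace -/
private def TV (σ : F ≃ₐ[k] F) : Submodule k F where
  carrier := {c | c + σ c = 0}
  zero_mem' := by
    change (0 : F) + σ 0 = 0
    simp
  add_mem' := by
    intro a b ha hb
    change a + b + σ (a + b) = 0
    change a + σ a = 0 at ha
    change b + σ b = 0 at hb
    rw [map_add]
    linear_combination ha + hb
  smul_mem' := by
    intro c a ha
    change c • a + σ (c • a) = 0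
    change a + σ a = 0 at ha
    rw [map_smul, ← smul_add, ha, smul_zero]

private theorem mem_TV {c : F} : c ∈ TV σ ↔ c + σ c = 0 := Iff.rfl

/-- the transvections -/
private def eT (B : HForm σ X) (p : X) (hp : B.f p p = 0) (c : ↥(TV σ)) : X ≃ₗ[F] X :=
  hE B p 0 c.1 hp (B.zero_l p)

private theorem eT_apply (hp : B.f p p = 0) (c : ↥(TV σ)) (x : X) :
    eT B p hp c x = x + (c.1 * B.f x p) • p := by
  unfold eT
  rw [hE_apply, B.zero_r]
  simp

private theorem eT_add (hp : B.f p p = 0) (c d : ↥(TV σ)) :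
    eT B p hp (c + d) = eT B p hp c * eT B p hp d := by
  ext x
  rw [LinearEquiv.mul_apply, eT_apply, eT_apply, eT_apply, B.add, B.smul, hp]
  simp only [Submodule.coe_add]
  module

private theorem span_pair_eq [FiniteDimensional F X] (h : HP B Y p p') (hY : finrank F Y = 2) :
    ∀ x ∈ Y, ∃ a b : F, x = a • p + b • p' := by
  have hli : LinearIndependent F ![p, p'] := by
    rw [LinearIndependent.pair_iff]
    intro s t hst
    have e1 : B.f (s • p + t • p') p' = 0 := by rw [hst, B.zero_l]
    have e2 : B.f (s • p + t • p') p = 0 := by rw [hst, B.zero_l]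
    rw [B.add, B.smul, B.smul, h.b, h.q2] at e1
    rw [B.add, B.smul, B.smul, h.q1, B.swap1 h.b] at e2
    constructor
    · simpa using e1
    · simpa using e2
  have h1 : finrank F (Submodule.span F (Set.range ![p, p'])) = 2 := by
    rw [finrank_span_eq_card hli]
    simp
  have h2 : Submodule.span F (Set.range ![p, p']) ≤ Y := by
    rw [Submodule.span_le]
    rintro x ⟨i, rfl⟩
    fin_cases i
    · exact h.m1
    · exact h.m2
  have h3 : Submodule.span F (Set.range ![p, p']) = Y :=
    Submodule.eq_of_le_of_finrank_eq h2 (by rw [h1, hY])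
  intro x hx
  rw [← h3, Matrix.range_cons, Matrix.range_cons, Matrix.range_empty, Set.union_empty,
    Set.singleton_union, Submodule.mem_span_pair] at hx
  obtain ⟨a, b, hab⟩ := hx
  exact ⟨a, b, hab.symm⟩

/-- the isotropic points of the hyperbolic plane -/
private theorem cases_S [FiniteDimensional F X] (h : HP B Y p p') (hY : finrank F Y = 2)
    (W : Submodule F X) (hW : W ∈ Sk B Y 1) :
    W = Submodule.span F {p} ∨ ∃ c : F, c + σ c = 0 ∧ W = Submodule.span F {p' + c • p} := by
  obtain ⟨h1, h2, h3⟩ := hW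
  obtain ⟨⟨x, hx⟩, hx0, hxs⟩ := finrank_eq_one_iff'.1 h2
  have hx0' : x ≠ 0 := by
    intro h4
    apply hx0
    exact Subtype.ext h4
  have hWs : W = Submodule.span F {x} := by
    apply le_antisymm
    · intro w hw
      obtain ⟨c, hc⟩ := hxs ⟨w, hw⟩
      rw [Submodule.mem_span_singleton]
      exact ⟨c, congrArg Subtype.val hc⟩
    · rw [Submodule.span_singleton_le_iff_mem]
      exact hx
  obtain ⟨a, b, hab⟩ := span_pair_eq h hY x (h1 hx)
  have hxx := h3 x hx x hx
  by_cases hb : b = 0
  · left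
    rw [hb, zero_smul, add_zero] at hab
    have ha : a ≠ 0 := by
      intro ha
      apply hx0'
      rw [hab, ha, zero_smul]
    rw [hWs, hab]
    exact Submodule.span_singleton_smul_eq (IsUnit.mk0 a ha) p
  · right
    have hσb : σ b ≠ 0 := by
      intro h4
      exact hb ((map_eq_zero σ).1 h4)
    rw [hab] at hxx
    rw [B.add, B.smul, B.smul, B.add_r, B.add_r, B.smul_r, B.smul_r, B.smul_r, B.smul_r, h.q1,
      h.q2, h.b, B.swap1 h.b] at hxx
    refine ⟨a / b, ?_, ?_⟩
    · rw [map_div₀]
      field_simp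
      linear_combination hxx
    · have e1 : x = b • (p' + (a / b) • p) := by
        rw [smul_add, smul_smul, mul_div_cancel₀ a hb, hab, add_comm]
      rw [hWs]
      rw [e1]
      exact Submodule.span_singleton_smul_eq (IsUnit.mk0 b hb) _

private theorem smul_span (g : X ≃ₗ[F] X) (x : X) :
    g • (Submodule.span F {x} : Submodule F X) = Submodule.span F {g x} := by
  rw [OG.smul_def, Submodule.map_span, Set.image_singleton]
  rfl

private theorem eT_p (hp : B.f p p = 0) (c : ↥(TV σ)) :
    eT B p hp c • (Submodule.span F {p} : Submodule F X) = Submodule.span F {p} := by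
  rw [smul_span, eT_apply, hp, mul_zero, zero_smul, add_zero]

private theorem eT_p' (h : HP B Y p p') (c : ↥(TV σ)) :
    eT B p h.q1 c • (Submodule.span F {p'} : Submodule F X) = Submodule.span F {p' + c.1 • p} := by
  rw [smul_span, eT_apply, B.swap1 h.b, mul_one]

/-- conjugation with the torus -/
private theorem eT_conj (hσ : QE σ) (h : HP B Y p p') (t : X ≃ₗ[F] X) (ht : t ∈ Gr B Y) (c : F)
    (htp : t p = c • p) (n : k) (hn : c * σ c = algebraMap k F n) (d : ↥(TV σ)) :
    t * eT B p h.q1 d * t⁻¹ = eT B p h.q1 (n • d) := by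
  ext x
  rw [LinearEquiv.mul_apply, LinearEquiv.mul_apply, eT_apply, eT_apply, map_add, map_smul, htp]
  have e1 : t (t⁻¹ x) = x := by
    rw [← LinearEquiv.mul_apply, mul_inv_cancel]
    rfl
  have e2 : B.f (t⁻¹ x) p = σ c * B.f x p := by
    have e3 := ht.1 (t⁻¹ x) p
    rw [e1, htp, B.smul_r] at e3
    exact e3.symm
  rw [e1, e2, smul_smul]
  congr 2
  have e4 : ((n • d : ↥(TV σ)) : F) = algebraMap k F n * d.1 := by
    rw [Submodule.coe_smul, Algebra.smul_def]
  rw [e4, ← hn]
  ring

end geo

theorem hM2 : StM2.{u, v, w, z, y} := by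
  intro k F R K _ _ _ _ X _ _ _ _ _ _ _ _ _ σ hσ B ψ hψ hq hG hT Y p p' h hY
  have : Module.Finite k F := by
    apply Module.finite_of_finrank_pos
    rw [hσ.dim]
    norm_num
  have : Finite F := Module.finite_of_finite k
  have hu : IsUnit ((Nat.card (Module.Dual k ↥(TV σ)) : ℕ) : R) := by
    rw [Module.natCard_eq_pow_finrank (K := k) (V := Module.Dual k ↥(TV σ)), Nat.cast_pow]
    exact hq.pow _
  have heH : ∀ c : ↥(TV σ), eT B p h.q1 c ∈ Gr B Y := by
    intro c
    refine hG.heis Y p 0 c.1 h.q1 (B.zero_l p) h.m1 (Submodule.zero_mem _) ?_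
    unfold Adm
    rw [B.zero_l, add_zero]
    exact mem_TV.1 c.2
  have hst : ∀ S : Set (Submodule F X), Stb ({1} : Set (X ≃ₗ[F] X)) S := by
    intro S g hg W
    rw [Set.mem_singleton_iff.1 hg, one_smul]
  have hH1 : ({1} : Set (X ≃ₗ[F] X)) ⊆ Gr B Y := by
    intro g hg
    rw [Set.mem_singleton_iff.1 hg]
    exact hG.one Y
  have hWt1 : ∀ l : Module.Dual k ↥(TV σ), ∀ g ∈ ({1} : Set (X ≃ₗ[F] X)), ∀ f : Submodule F X → K,
      f ∈ Wt K (eT B p h.q1) ψ l → act g f ∈ Wt K (eT B p h.q1) ψ l := by
    intro l g hg f hf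
    rw [Set.mem_singleton_iff.1 hg, act_one]
    exact hf
  -- a weight function vanishing at the two base points vanishes
  have hvan : ∀ (l : Module.Dual k ↥(TV σ)) (f : Submodule F X → K), f ∈ Wt K (eT B p h.q1) ψ l →
      f ∈ supS R K (Sk B Y 1) → f (Submodule.span F {p}) = 0 → f (Submodule.span F {p'}) = 0 →
      f = 0 := by
    intro l f hf hs h1 h2
    funext W
    by_cases hW : W ∈ Sk B Y 1
    · rcases cases_S h hY W hW with h3 | ⟨c, hc, h3⟩
      · rw [h3, h1]
        rfl
      · rw [h3]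
        have h4 := Wt_translate hf ⟨c, mem_TV.2 hc⟩ _ h2
        rw [eT_p' h] at h4
        exact h4
    · exact hs W hW
  have hnz : ∀ (l : Module.Dual k ↥(TV σ)) (f : Submodule F X → K), l ≠ 0 →
      f ∈ Wt K (eT B p h.q1) ψ l → f (Submodule.span F {p}) = 0 := by
    intro l f hl hf
    by_contra h1
    apply hl
    ext v
    rw [LinearMap.zero_apply]
    exact Wt_zero_on hψ hf _ h1 ⊤ (fun v _ => eT_p h.q1 v) v trivial
  have hB2 : Bd R K ({1} : Set (X ≃ₗ[F] X))
      ({Submodule.span F {p}} ∪ {Submodule.span F {p'}} : Set (Submodule F X)) (1 + 1) :=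
    Bd_union (hst _) (Bd_single _) (Bd_single _)
  by_cases hl1 : ∃ l₁ : Module.Dual k ↥(TV σ), l₁ ≠ 0
  · obtain ⟨l₁, hl₁⟩ := hl1
    have hcl := Bd_clifford (K := K) (eT B p h.q1) (fun c d => eT_add h.q1 c d) ψ hψ hu
      (H := Gr B Y) (S := Sk B Y 1) heH (Finset.univ : Finset (Fin 2)) ![0, l₁] ![2, 1] ?_ ?_
    · simpa using hcl
    · intro i _
      fin_cases i
      · refine ⟨{1}, _, hB2, hH1, hst _, hWt1 _, ?_⟩
        intro f hf hs h1
        exact hvan _ f hf hs (h1 _ (Or.inl rfl)) (h1 _ (Or.inr rfl))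
      · refine ⟨{1}, {Submodule.span F {p'}}, Bd_single _, hH1, hst _, hWt1 _, ?_⟩
        intro f hf hs h1
        exact hvan _ f hf hs (hnz l₁ f hl₁ hf) (h1 _ rfl)
    · intro l
      right
      by_cases hl : l = 0
      · refine ⟨0, Finset.mem_univ _, 1, hG.one Y, by rw [inv_one]; exact hG.one Y, ?_⟩
        intro f hf
        rw [inv_one, act_one, hl] at *
        exact hf
      · refine ⟨1, Finset.mem_univ _, ?_⟩
        -- the trace zero elements are a line
        obtain ⟨y₀, hy₀⟩ := hσ.ne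
        have hτ0 : y₀ - σ y₀ ≠ 0 := fun h1 => hy₀ (sub_eq_zero.1 h1).symm
        have hτ : (y₀ - σ y₀) + σ (y₀ - σ y₀) = 0 := by
          rw [map_sub, hσ.inv]
          ring
        obtain ⟨τ, hτv⟩ : ∃ τ : ↥(TV σ), τ.1 = y₀ - σ y₀ := ⟨⟨_, mem_TV.2 hτ⟩, rfl⟩
        have hline : ∀ c : ↥(TV σ), ∃ m : k, c = m • τ := by
          intro c
          have h1 : σ (c.1 / τ.1) = c.1 / τ.1 := by
            have e1 : σ c.1 = -c.1 := by linear_combination mem_TV.1 c.2
            have e2 : σ τ.1 = -τ.1 := by linear_combination mem_TV.1 τ.2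
            rw [map_div₀, e1, e2, neg_div_neg_eq]
          obtain ⟨m, hm⟩ := hσ.fix _ h1
          refine ⟨m, ?_⟩
          apply Subtype.ext
          rw [Submodule.coe_smul, Algebra.smul_def, hm, hτv, div_mul_cancel₀ _ hτ0]
        have hlτ : ∀ l' : Module.Dual k ↥(TV σ), l' ≠ 0 → l' τ ≠ 0 := by
          intro l' hl' h1
          apply hl'
          ext c
          obtain ⟨m, hm⟩ := hline c
          rw [hm, map_smul, h1, smul_zero, LinearMap.zero_apply]
        obtain ⟨c, hc⟩ := hσ.nrm (l₁ τ / l τ)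
        have hn0 : l₁ τ / l τ ≠ 0 := div_ne_zero (hlτ l₁ hl₁) (hlτ l hl)
        have hc0 : c ≠ 0 := by
          intro h1
          rw [h1, zero_mul] at hc
          exact hn0 ((map_eq_zero (algebraMap k F)).1 hc.symm)
        obtain ⟨t, ht, htp, -, -⟩ := hT Y p p' h c hc0
        refine ⟨t, ht, hG.inv Y t ht, ?_⟩
        intro f hf
        refine Wt_conj t (fun d => (l₁ τ / l τ) • d)
          (fun d => eT_conj hσ h t ht c htp _ hc d) ?_ hf
        intro d
        obtain ⟨m, hm⟩ := hline d
        rw [hm, map_smul, map_smul]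
        change (l₁ τ / l τ) • m • l τ = l₁ (m • τ)
        rw [map_smul]
        simp only [smul_eq_mul]
        have := hlτ l hl
        field_simp
  · push Not at hl1
    have hcl := Bd_clifford (K := K) (eT B p h.q1) (fun c d => eT_add h.q1 c d) ψ hψ hu
      (H := Gr B Y) (S := Sk B Y 1) heH (Finset.univ : Finset (Fin 1)) ![0] ![2] ?_ ?_
    · refine Bd_mono hcl subset_rfl subset_rfl ?_
      simp
    · intro i _
      refine ⟨{1}, ({Submodule.span F {p}} ∪ {Submodule.span F {p'}} : Set (Submodule F X)), ?_, hH1,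
        hst _, hWt1 _, ?_⟩
      · fin_cases i
        exact hB2
      · intro f hf hs h1
        exact hvan _ f hf hs (h1 _ (Or.inl rfl)) (h1 _ (Or.inr rfl))
    · intro l
      right
      refine ⟨0, Finset.mem_univ _, 1, hG.one Y, by rw [inv_one]; exact hG.one Y, ?_⟩
      intro f hf
      rw [inv_one, act_one]
      rw [hl1 l] at hf
      exact hf

end Pool.Agent.Helper1.GUT
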